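import Pool.Agent.H369.CB.Stm

/-!
# CB1: multiplicity at a point of the torus
-/

set_option autoImplicit false

namespace Pool.Agent.H183.CB

open Pool.Agent.TH603.EL Pool.Agent.TH716.CF Pool.Agent.H369.TH Pool.Agent.H369.CB Finset

section ring

variable {R : Type} [CommRing R]

/-- the truncated binomial series -/
noncomputable def PP (U : R) (γ : ℕ) (m : ℤ) : R :=
  ∑ a ∈ range γ, ((Ring.choose m a : ℤ) : R) * U ^ a

theorem PP_zero (U : R) (γ : ℕ) : PP U (γ + 1) 0 = 1 := by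
  unfold PP
  rw [sum_range_succ', Ring.choose_zero_right, Int.cast_one, pow_zero, mul_one]
  have : ∑ a ∈ range γ, ((Ring.choose (0 : ℤ) (a + 1) : ℤ) : R) * U ^ (a + 1) = 0 :=
    sum_eq_zero fun a _ => by rw [Ring.choose_zero_succ, Int.cast_zero, zero_mul]
  rw [this, zero_add]

theorem PP_succ (U : R) (γ : ℕ) (m : ℤ) :
    PP U (γ + 1) (m + 1) + ((Ring.choose m γ : ℤ) : R) * U ^ (γ + 1) = (1 + U) * PP U (γ + 1) m := by
  unfold PP
  rw [sum_range_succ', Ring.choose_zero_right, add_mul, one_mul, mul_sum]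
  have h1 : ∀ a ∈ range γ, ((Ring.choose (m + 1) (a + 1) : ℤ) : R) * U ^ (a + 1) =
      ((Ring.choose m a : ℤ) : R) * U ^ (a + 1) + ((Ring.choose m (a + 1) : ℤ) : R) * U ^ (a + 1) := by
    intro a _
    rw [Ring.choose_succ_succ, Int.cast_add, add_mul]
  rw [sum_congr rfl h1, sum_add_distrib]
  have h2 : ∑ a ∈ range (γ + 1), U * (((Ring.choose m a : ℤ) : R) * U ^ a) =
      ∑ a ∈ range γ, ((Ring.choose m a : ℤ) : R) * U ^ (a + 1) +
        ((Ring.choose m γ : ℤ) : R) * U ^ (γ + 1) := by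
    rw [sum_range_succ]
    congr 1
    · exact sum_congr rfl fun a _ => by ring
    · ring
  rw [h2, sum_range_succ' (fun a => ((Ring.choose m a : ℤ) : R) * U ^ a), Ring.choose_zero_right]
  ring

/-- powers with integral exponents modulo a power of an ideal -/
theorem zpow_mod (I : Ideal R) {U : R} (hU : U ∈ I) (γ : ℕ) (u : ℤ → R) (h0 : u 0 = 1)
    (h1 : u 1 = 1 + U) (hm : ∀ m m', u (m + m') = u m * u m') (m : ℤ) :
    u m - PP U γ m ∈ I ^ γ := by
  cases γ with
  | zero => rw [pow_zero, Ideal.one_eq_top]; trivial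
  | succ γ =>
    have hUp : ∀ c : R, c * U ^ (γ + 1) ∈ I ^ (γ + 1) := fun c =>
      Ideal.mul_mem_left _ _ (Ideal.pow_mem_pow hU _)
    have key : ∀ m : ℤ, u (m + 1) - PP U (γ + 1) (m + 1) - u 1 * (u m - PP U (γ + 1) m) ∈
        I ^ (γ + 1) := by
      intro m
      have e : u (m + 1) - PP U (γ + 1) (m + 1) - u 1 * (u m - PP U (γ + 1) m) =
          ((Ring.choose m γ : ℤ) : R) * U ^ (γ + 1) := by
        have h2 := PP_succ U γ m
        rw [hm, h1]
        linear_combination (-1 : R) * h2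
      rw [e]
      exact hUp _
    induction m using Int.induction_on with
    | zero =>
      rw [h0, PP_zero, sub_self]
      exact Ideal.zero_mem _
    | succ i ih =>
      have := Ideal.add_mem _ (key i) (Ideal.mul_mem_left _ (u 1) ih)
      rwa [sub_add_cancel] at this
    | pred i ih =>
      have h2 := key (-(i : ℤ) - 1)
      rw [sub_add_cancel] at h2
      have h3 := Ideal.sub_mem _ ih h2
      rw [sub_sub_cancel] at h3
      have h4 := Ideal.mul_mem_left _ (u (-1)) h3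
      rw [← mul_assoc, ← hm, neg_add_cancel, h0, one_mul] at h4
      exact h4

/-- powers with natural exponents modulo a power of an ideal -/
theorem pow_mod (I : Ideal R) {V : R} (hV : V ∈ I) (γ : ℕ) (y : R) (n : ℕ) :
    (V + y) ^ n - ∑ b ∈ range γ, (n.choose b : R) * y ^ (n - b) * V ^ b ∈ I ^ γ := by
  have h1 : (V + y) ^ n = ∑ b ∈ range (n + 1 + γ), (n.choose b : R) * y ^ (n - b) * V ^ b := by
    have : ∑ x ∈ range γ, (n.choose (n + 1 + x) : R) * y ^ (n - (n + 1 + x)) * V ^ (n + 1 + x) = 0 :=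
      sum_eq_zero fun x _ => by
        rw [Nat.choose_eq_zero_of_lt (by omega), Nat.cast_zero, zero_mul, zero_mul]
    rw [add_pow, sum_range_add (fun b => (n.choose b : R) * y ^ (n - b) * V ^ b) (n + 1) γ, this,
      add_zero]
    exact sum_congr rfl fun b _ => by ring
  have h2 : n + 1 + γ = γ + (n + 1) := by ring
  rw [h1, h2, sum_range_add, add_sub_cancel_left]
  refine Ideal.sum_mem _ fun b _ => Ideal.mul_mem_left _ _ ?_
  exact Ideal.pow_le_pow_right (Nat.le_add_right γ b) (Ideal.pow_mem_pow hV _)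

end ring

section lau

variable {K : Type} [Field K]

/-- the constants -/
noncomputable def cc : K →+* Lau K := AddMonoidAlgebra.singleZeroRingHom

theorem cc_apply (c : K) : cc c = (AddMonoidAlgebra.single 0 c : Lau K) := rfl

theorem mon (ξ : Kˣ) (m : ℤ) (n : ℕ) (c : K) :
    (AddMonoidAlgebra.single (m, (n : ℤ)) c : Lau K) =
      cc (c * ((ξ ^ m : Kˣ) : K)) * AddMonoidAlgebra.single (m, 0) (((ξ ^ m)⁻¹ : Kˣ) : K) *
        (AddMonoidAlgebra.single (0, 1) 1) ^ n := by
  rw [cc_apply, AddMonoidAlgebra.single_mul_single, AddMonoidAlgebra.single_pow,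
    AddMonoidAlgebra.single_mul_single, one_pow, mul_one, mul_assoc, Units.mul_inv, mul_one]
  congr 1
  simp

theorem cc_ex2 (ξ : Kˣ) (y : K) (a b : ℕ) (f : (ℤ × ℕ) →₀ K) :
    cc (ex2 ξ y a b f) = ∑ p ∈ f.support, cc (f p * ((ξ ^ p.1 : Kˣ) : K)) *
      ((Ring.choose p.1 a : ℤ) : Lau K) * ((p.2.choose b : Lau K) * cc y ^ (p.2 - b)) := by
  unfold ex2
  rw [Finsupp.sum, map_sum]
  refine sum_congr rfl fun p _ => ?_
  simp only [map_mul, map_pow, map_intCast, map_natCast]
  ring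

end lau

theorem pow : S_pow := by
  intro K _ φ hφ ξ y hx hy f γ hf
  have hI : ∀ g, g ∈ J φ 1 ↔ PowerSeries.constantCoeff (φ g) = 0 := by
    intro g
    rw [mem_J]
    constructor
    · intro h
      have := h 0 zero_lt_one
      rwa [PowerSeries.coeff_zero_eq_constantCoeff_apply] at this
    · intro h n hn
      have : n = 0 := by omega
      rw [this, PowerSeries.coeff_zero_eq_constantCoeff_apply]
      exact h
  have hcc : ∀ c : K, PowerSeries.constantCoeff (φ (cc c)) = c := by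
    intro c
    rw [cc_apply, hφ.const, PowerSeries.constantCoeff_C]
  set u : ℤ → Lau K := fun m => AddMonoidAlgebra.single (m, 0) (((ξ ^ m)⁻¹ : Kˣ) : K) with hu
  have hu0 : u 0 = 1 := by
    simp only [hu]
    rw [zpow_zero, inv_one, Units.val_one]
    rfl
  have humul : ∀ m m', u (m + m') = u m * u m' := by
    intro m m'
    simp only [hu]
    rw [AddMonoidAlgebra.single_mul_single, zpow_add, mul_inv, Units.val_mul]
    congr 1
  have hu1 : u 1 = cc ((ξ⁻¹ : Kˣ) : K) * AddMonoidAlgebra.single (1, 0) 1 := by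
    simp only [hu]
    rw [cc_apply, AddMonoidAlgebra.single_mul_single, mul_one, zero_add, zpow_one]
  have hU : u 1 - 1 ∈ J φ 1 := by
    rw [hI, map_sub, map_sub, map_one, map_one, hu1, map_mul, map_mul, hcc, hx, Units.inv_mul,
      sub_self]
  have hV : (AddMonoidAlgebra.single (0, 1) 1 : Lau K) - cc y ∈ J φ 1 := by
    rw [hI, map_sub, map_sub, hcc, hy, sub_self]
  set U : Lau K := u 1 - 1 with hUdef
  set V : Lau K := (AddMonoidAlgebra.single (0, 1) 1 : Lau K) - cc y with hVdef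
  have h1 : ∀ p : ℤ × ℕ, (AddMonoidAlgebra.single (p.1, (p.2 : ℤ)) (f p) : Lau K) -
      cc (f p * ((ξ ^ p.1 : Kˣ) : K)) * PP U γ p.1 *
        (∑ b ∈ range γ, (p.2.choose b : Lau K) * cc y ^ (p.2 - b) * V ^ b) ∈ J φ 1 ^ γ := by
    intro p
    have h2 := zpow_mod (J φ 1) hU γ u hu0 (by rw [hUdef]; ring) humul p.1
    have h3 := pow_mod (J φ 1) hV γ (cc y) p.2
    have e : (V + cc y) = (AddMonoidAlgebra.single (0, 1) 1 : Lau K) := by
      rw [hVdef]
      ring
    rw [e] at h3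
    rw [mon ξ p.1 p.2 (f p)]
    have h4 := Ideal.add_mem _ (Ideal.mul_mem_left _ (cc (f p * ((ξ ^ p.1 : Kˣ) : K)) *
      (AddMonoidAlgebra.single (0, 1) 1 : Lau K) ^ p.2) h2)
      (Ideal.mul_mem_left _ (cc (f p * ((ξ ^ p.1 : Kˣ) : K)) * PP U γ p.1) h3)
    refine (congrArg (fun z => z ∈ J φ 1 ^ γ) ?_).mp h4
    ring
  have h2 : toLau f - ∑ p ∈ f.support, cc (f p * ((ξ ^ p.1 : Kˣ) : K)) * PP U γ p.1 *
        (∑ b ∈ range γ, (p.2.choose b : Lau K) * cc y ^ (p.2 - b) * V ^ b) ∈ J φ 1 ^ γ := by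
    unfold toLau
    rw [Finsupp.sum, ← sum_sub_distrib]
    exact Ideal.sum_mem _ fun p _ => h1 p
  have h3 : ∑ p ∈ f.support, cc (f p * ((ξ ^ p.1 : Kˣ) : K)) * PP U γ p.1 *
        (∑ b ∈ range γ, (p.2.choose b : Lau K) * cc y ^ (p.2 - b) * V ^ b) =
      ∑ a ∈ range γ, ∑ b ∈ range γ, cc (ex2 ξ y a b f) * (U ^ a * V ^ b) := by
    have e1 : ∀ a b, cc (ex2 ξ y a b f) * (U ^ a * V ^ b) = ∑ p ∈ f.support,
        cc (f p * ((ξ ^ p.1 : Kˣ) : K)) *
      ((Ring.choose p.1 a : ℤ) : Lau K) * ((p.2.choose b : Lau K) * cc y ^ (p.2 - b)) *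
        (U ^ a * V ^ b) := by
      intro a b
      rw [cc_ex2, sum_mul]
    have e2 : ∑ a ∈ range γ, ∑ b ∈ range γ, cc (ex2 ξ y a b f) * (U ^ a * V ^ b) =
        ∑ p ∈ f.support, ∑ a ∈ range γ, ∑ b ∈ range γ, cc (f p * ((ξ ^ p.1 : Kˣ) : K)) *
      ((Ring.choose p.1 a : ℤ) : Lau K) * ((p.2.choose b : Lau K) * cc y ^ (p.2 - b)) *
        (U ^ a * V ^ b) := by
      rw [sum_comm]
      rw [sum_congr rfl fun b _ => sum_congr rfl fun a _ => e1 a b]
      rw [sum_congr rfl fun b _ => sum_comm, sum_comm]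
      refine sum_congr rfl fun p _ => ?_
      rw [sum_comm]
    rw [e2]
    refine sum_congr rfl fun p _ => ?_
    unfold PP
    rw [mul_assoc, sum_mul_sum, mul_sum]
    refine sum_congr rfl fun a _ => ?_
    rw [mul_sum]
    exact sum_congr rfl fun b _ => by ring
  rw [h3] at h2
  have h4 : ∑ a ∈ range γ, ∑ b ∈ range γ, cc (ex2 ξ y a b f) * (U ^ a * V ^ b) ∈ J φ 1 ^ γ := by
    refine Ideal.sum_mem _ fun a _ => Ideal.sum_mem _ fun b _ => ?_
    by_cases hab : a + b < γ
    · rw [hf a b hab, map_zero, zero_mul]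
      exact Ideal.zero_mem _
    · refine Ideal.mul_mem_left _ _ ?_
      have h5 : U ^ a * V ^ b ∈ J φ 1 ^ (a + b) := by
        rw [pow_add]
        exact Ideal.mul_mem_mul (Ideal.pow_mem_pow hU _) (Ideal.pow_mem_pow hV _)
      exact Ideal.pow_le_pow_right (by omega) h5
  have h5 := Ideal.add_mem _ h2 h4
  rwa [sub_add_cancel] at h5

end Pool.Agent.H183.CB
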